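import Pool.Agent.KDT.StmtsK
import Pool.Agent.Helper88_SZT.MSM

set_option autoImplicit false

/-!
# Squad KDT, row GLB: the main inequality
-/

namespace Pool.Agent.KDT.H49

open Polynomial NumberField H58Q Pool.Agent.SZT Pool.Agent.KDT

theorem glb (hLDT : LdtStatement) (hPFS : SZT.PfsStatement) (hQVN : SZT.QvnStatement)
    (hDSH : SZT.DshStatement) : GlbStatement := by
  classical
  obtain ⟨⟨c2, hc2, hL1⟩, hL2, hL3⟩ := hLDT
  intro κ hκ
  obtain ⟨Ck, hCk, hL2⟩ := hL2 κ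
  have hl2 : 0 ≤ Real.log 2 := Real.log_nonneg (by norm_num)
  refine ⟨Ck + κ * (2 * κ ^ 2 + 2) * (c2 * Real.log 2), by positivity, ?_⟩
  intro K _ _ f m₀ n₀ I A B U W M k S hf hdeg hsq hint hI hdiv hS hVG hGen hdet
  set D : K := (Matrix.of fun (j e : Ex κ) => mon e.1 (kum f (A j) (B j))).det with hD
  obtain ⟨hD0, -, -, -, -, -⟩ := hDSH K f hf hdeg hsq hint
  have hv1 : ∀ (v : FinitePlace K) (n : ℕ), v (f.coeff n) ≤ 1 := fun v n =>
    SZT.H88M.le_one_of_isIntegral v (hint n)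
  -- the product formula for `Lv`
  have hPF : ∀ j : Ex κ, ∃ T₀ : Finset (FinitePlace K), ∀ T : Finset (FinitePlace K), T₀ ⊆ T →
      ∑ v : InfinitePlace K, (v.mult : ℝ) * Lv v f (A j) (U j) (M j) +
        ∑ v ∈ T, Lv v f (A j) (U j) (M j) = 0 :=
    fun j => hPFS K f (A j) (U j) (M j) (hVG j).1.1.cop (hGen j).cop
  choose T₀ hT₀ using hPF
  obtain ⟨T1, hT1⟩ := SZT.H88M.fin_supp (K := K) hD0
  obtain ⟨T2, hT2⟩ := SZT.H88M.fin_supp (K := K) (x := 2) two_ne_zero
  obtain ⟨T3, hT3⟩ := SZT.H88M.fin_supp (K := K) hdet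
  set T : Finset (FinitePlace K) := (((Finset.univ.biUnion T₀ ∪ T1) ∪ T2) ∪ T3) ∪ S with hT
  have hST : S ⊆ T := Finset.subset_union_right
  have hLL : ∑ v : InfinitePlace K, (v.mult : ℝ) * (∑ j, Lv v f (A j) (U j) (M j)) +
      ∑ v ∈ T, ∑ j, Lv v f (A j) (U j) (M j) = 0 := by
    have h1 : ∀ j : Ex κ, ∑ v : InfinitePlace K, (v.mult : ℝ) * Lv v f (A j) (U j) (M j) +
        ∑ v ∈ T, Lv v f (A j) (U j) (M j) = 0 := by
      intro j
      apply hT₀ j T
      intro v hv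
      simp only [hT, Finset.mem_union]
      exact Or.inl (Or.inl (Or.inl (Or.inl
        (Finset.mem_biUnion.2 ⟨j, Finset.mem_univ j, hv⟩))))
    have h2 : ∑ j : Ex κ, (∑ v : InfinitePlace K, (v.mult : ℝ) * Lv v f (A j) (U j) (M j) +
        ∑ v ∈ T, Lv v f (A j) (U j) (M j)) = 0 := Finset.sum_eq_zero fun j _ => h1 j
    rw [Finset.sum_add_distrib, Finset.sum_comm, Finset.sum_comm (s := Finset.univ) (t := T)] at h2
    simp only [← Finset.mul_sum] at h2
    exact h2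
  have hd := SZT.H88M.logprod hD0 T (fun v hv => by
    simp only [hT, Finset.mem_union]
    exact Or.inl (Or.inl (Or.inl (Or.inr (hT1 v hv)))))
  have h2 := SZT.H88M.log_two (K := K) T (fun v hv => by
    simp only [hT, Finset.mem_union]
    exact Or.inl (Or.inl (Or.inr (hT2 v hv))))
  have h3 := SZT.H88M.logprod hdet T (fun v hv => by
    simp only [hT, Finset.mem_union]
    exact Or.inl (Or.inr (hT3 v hv)))
  have hS2 : ∀ v ∈ S, v (2 : K) = 1 := fun v hv => (hS v hv).1.1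
  have hs2 : ∑ v ∈ S, Real.log (v (2 : K)) = 0 :=
    Finset.sum_eq_zero fun v hv => by rw [hS2 v hv, Real.log_one]
  have e0 := Finset.sum_sdiff (f := fun v : FinitePlace K => Real.log (v D)) hST
  have e1 := Finset.sum_sdiff
    (f := fun v : FinitePlace K => ∑ j, Lv v f (A j) (U j) (M j)) hST
  have e2 := Finset.sum_sdiff (f := fun v : FinitePlace K => Real.log (v (discr f))) hST
  have e3 := Finset.sum_sdiff (f := fun v : FinitePlace K => Real.log (v (2 : K))) hST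
  -- the infinite places
  have b1 : ∑ v : InfinitePlace K, (v.mult : ℝ) * Real.log (v D) ≤
      κ * (∑ v : InfinitePlace K, (v.mult : ℝ) * (∑ j, Lv v f (A j) (U j) (M j))) -
      κ * (2 * κ ^ 2 + 2) * ((1 / 2) * ∑ v : InfinitePlace K,
        (v.mult : ℝ) * Real.log (v (discr f))) +
      (50 * κ ^ 3 + 6 * κ ^ 2 + 40 * κ + 6) / 3 * lH f + Ck * Module.finrank ℚ K := by
    have hm : (Module.finrank ℚ K : ℝ) = ∑ v : InfinitePlace K, (v.mult : ℝ) := by
      rw [← Nat.cast_sum, InfinitePlace.sum_mult_eq]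
    rw [hm, lH, Finset.mul_sum, Finset.mul_sum, Finset.mul_sum, Finset.mul_sum, Finset.mul_sum,
      ← Finset.sum_sub_distrib, ← Finset.sum_add_distrib, ← Finset.sum_add_distrib]
    apply Finset.sum_le_sum
    intro v _
    have h4 := mul_le_mul_of_nonneg_left
      (hL2 K v f A B U W M hf hdeg hsq hκ (fun j => (hVG j).1) hGen hdet)
      (Nat.cast_nonneg (α := ℝ) v.mult)
    refine h4.trans (le_of_eq ?_)
    ring
  -- the finite places outside of `S`
  have b2 : ∑ v ∈ T \ S, Real.log (v D) ≤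
      κ * (∑ v ∈ T \ S, ∑ j, Lv v f (A j) (U j) (M j)) -
      κ * (2 * κ ^ 2 + 2) * ((1 / 2) * (∑ v ∈ T \ S, Real.log (v (discr f))) +
        c2 * ∑ v ∈ T \ S, Real.log (v (2 : K))) := by
    rw [Finset.mul_sum, Finset.mul_sum, Finset.mul_sum, ← Finset.sum_add_distrib, Finset.mul_sum,
      ← Finset.sum_sub_distrib]
    exact Finset.sum_le_sum fun v _ =>
      hL1 K v f κ A B U W M hf hdeg hsq (hv1 v) hκ (fun j => (hVG j).1) hGen hdet
  -- the nodes
  have b3 : ∑ v ∈ S, Real.log (v D) ≤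
      κ * (∑ v ∈ S, ∑ j, Lv v f (A j) (U j) (M j)) +
      (κ ^ 3 + 2 * κ) / 6 * (- ∑ v ∈ S with
        v (discr f) * (Ideal.absNorm v.maximalIdeal.asIdeal : ℝ) ^ n₀ < 1,
          Real.log (v (discr f))) := by
    rw [Finset.sum_filter, ← Finset.sum_neg_distrib, Finset.mul_sum, Finset.mul_sum,
      ← Finset.sum_add_distrib]
    apply Finset.sum_le_sum
    intro v hv
    obtain ⟨hnode, hlt⟩ := hS v hv
    obtain ⟨n, hn, hq⟩ := hQVN K v (discr f) hD0 hlt
    have h4 := hL3 K v f n m₀ n₀ κ I A B U W M k hf hdeg hsq hnode hn hq hκ hI hdiv hVG hGen hdet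
    have hDp : 0 < v (discr f) := FinitePlace.pos_iff.mpr hD0
    have hlog : Real.log (v (discr f)) ≤ 0 := Real.log_nonpos hDp.le hlt.le
    have hc : (0 : ℝ) ≤ ((κ : ℝ) ^ 3 + 2 * κ) / 6 := by positivity
    refine h4.trans ?_
    rw [sub_eq_add_neg]
    apply add_le_add le_rfl
    by_cases hle : n ≤ n₀
    · rw [if_pos hle, neg_zero]
      apply mul_nonneg hc
      split_ifs
      · linarith
      · simp
    · rw [if_neg hle]
      have hq0 : (0 : ℝ) ≤ (Ideal.absNorm v.maximalIdeal.asIdeal : ℝ) := Nat.cast_nonneg _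
      have hq1 : (1 : ℝ) < (Ideal.absNorm v.maximalIdeal.asIdeal : ℝ) := by
        by_contra hcon
        rw [not_lt] at hcon
        have h5 : (Ideal.absNorm v.maximalIdeal.asIdeal : ℝ) ^ n ≤ 1 := pow_le_one₀ hq0 hcon
        have h6 := mul_le_mul_of_nonneg_left h5 hDp.le
        rw [hq] at h6
        linarith
      have hfil : v (discr f) * (Ideal.absNorm v.maximalIdeal.asIdeal : ℝ) ^ n₀ < 1 := by
        rw [← hq]
        exact mul_lt_mul_of_pos_left (pow_lt_pow_right₀ hq1 (not_le.1 hle)) hDp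
      rw [if_pos hfil]
      apply le_of_eq
      ring
  rw [hs2, add_zero] at e3
  rw [e3, h2] at b2
  rw [← e0] at h3
  rw [← e1] at hLL
  rw [← e2] at hd
  set XI := ∑ v : InfinitePlace K, (v.mult : ℝ) * Real.log (v (discr f)) with hXI
  set XT := ∑ v ∈ T \ S, Real.log (v (discr f)) with hXT
  set XS := ∑ v ∈ S, Real.log (v (discr f)) with hXS
  set LI := ∑ v : InfinitePlace K, (v.mult : ℝ) * (∑ j, Lv v f (A j) (U j) (M j)) with hLI
  set LT := ∑ v ∈ T \ S, ∑ j, Lv v f (A j) (U j) (M j) with hLT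
  set LS := ∑ v ∈ S, ∑ j, Lv v f (A j) (U j) (M j) with hLS
  have e4 : (κ : ℝ) * (LI + (LT + LS)) = 0 := by rw [hLL, mul_zero]
  have e5 : (κ : ℝ) * (κ ^ 2 + 1) * (XI + XT) = - ((κ : ℝ) * (κ ^ 2 + 1) * XS) := by
    have h4 : XI + XT = - XS := by linarith
    rw [h4]
    ring
  have e6 : (Ck + (κ : ℝ) * (2 * κ ^ 2 + 2) * (c2 * Real.log 2)) * (Module.finrank ℚ K : ℝ) =
      Ck * Module.finrank ℚ K +
        κ * (2 * κ ^ 2 + 2) * (c2 * (Module.finrank ℚ K * Real.log 2)) := by ring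
  rw [e6]
  nlinarith [b1, b2, b3, h3, e4, e5]

end Pool.Agent.KDT.H49
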