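import Pool.Agent.KDT.StmtsM

set_option autoImplicit false

/-!
# Squad KDT, row LFF: at most four points over a plane point
-/

namespace Pool.Agent.KDT.Z.H49

open Polynomial H58Q Pool.Agent.SZT Pool.Agent.KDT.Z

variable {F : Type} [Field F]

theorem eval_pB (q : Fin 4 → F) (a : F) : (pB q).eval a = q 3 * a + q 2 := by
  simp [pB]

theorem eval_pA (q : Fin 4 → F) (a : F) : (pA q).eval a = a ^ 2 - q 0 * a + q 1 := by
  simp [pA]

theorem on_eval {f : F[X]} {q : Fin 4 → F} (h : On f q) {a : F}
    (ha : a ^ 2 - q 0 * a + q 1 = 0) : (pB q).eval a ^ 2 = f.eval a := by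
  obtain ⟨g, hg⟩ := h
  have h1 := congrArg (Polynomial.eval a) hg
  rw [eval_mul, eval_pA, ha, zero_mul, eval_sub, eval_pow, sub_eq_zero] at h1
  exact h1

theorem on_deriv {f : F[X]} {q : Fin 4 → F} (h : On f q) {a : F}
    (ha : a ^ 2 - q 0 * a + q 1 = 0) (ha2 : 2 * a = q 0) :
    2 * (pB q).eval a * q 3 = f.derivative.eval a := by
  obtain ⟨g, hg⟩ := h
  have h1 := congrArg (fun P : F[X] => (derivative P).eval a) hg
  simp only [derivative_sub, derivative_mul, eval_sub, eval_add, eval_mul, eval_pA, pow_two] at h1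
  have h2 : (derivative (pA q)).eval a = 0 := by
    simp only [pA, derivative_add, derivative_sub, derivative_pow, derivative_X, derivative_mul,
      derivative_C, eval_add, eval_sub, eval_mul, eval_C, eval_X, eval_pow]
    simp
    rw [← ha2]
    ring
  have h3 : (derivative (pB q)).eval a = q 3 := by simp [pB]
  rw [h2, h3] at h1
  linear_combination h1 + (derivative g).eval a * ha

theorem on_ne {f : F[X]} (hf : Squarefree f) {q : Fin 4 → F} (h : On f q) {a : F}
    (ha : a ^ 2 - q 0 * a + q 1 = 0) (ha2 : 2 * a = q 0) : (pB q).eval a ≠ 0 := by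
  intro h0
  have hA : pA q = (X - C a) * (X - C a) := by
    unfold pA
    rw [← ha2]
    have h1 : q 1 = a * a := by
      rw [← ha2] at ha
      linear_combination ha
    rw [h1, C_mul, C_mul, C_ofNat]
    ring
  have hB : (X - C a) ∣ pB q := dvd_iff_isRoot.2 h0
  have h1 : (X - C a) * (X - C a) ∣ pB q ^ 2 := by
    rw [pow_two]
    exact mul_dvd_mul hB hB
  have h2 : (X - C a) * (X - C a) ∣ f := by
    unfold On at h
    rw [hA] at h
    have h3 := dvd_sub h1 h
    rw [sub_sub_cancel] at h3
    exact h3
  exact not_isUnit_X_sub_C a (hf _ h2)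

theorem card_four [DecidableEq F] (β β' : F) : ((({β, -β} : Finset F) ×ˢ ({β', -β'} : Finset F)).card) ≤ 4 := by
  rw [Finset.card_product]
  have h1 : ({β, -β} : Finset F).card ≤ 2 := Finset.card_le_two
  have h2 : ({β', -β'} : Finset F).card ≤ 2 := Finset.card_le_two
  nlinarith

theorem lff : LffStatement := by
  classical
  intro F _ _ _ f hf s p
  obtain ⟨a, ha⟩ : ∃ a : F, a ^ 2 - s * a + p = 0 := by
    have hd : (X ^ 2 - C s * X + C p : F[X]).degree = 2 := by compute_degree!
    obtain ⟨a, ha⟩ := IsAlgClosed.exists_root (X ^ 2 - C s * X + C p : F[X]) (by rw [hd]; decide)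
    exact ⟨a, by simpa [IsRoot] using ha⟩
  obtain ⟨β, hβ⟩ := IsAlgClosed.exists_pow_nat_eq (f.eval a) (n := 2) two_pos
  obtain ⟨β', hβ'⟩ := IsAlgClosed.exists_pow_nat_eq (f.eval (s - a)) (n := 2) two_pos
  have ha' : (s - a) ^ 2 - s * (s - a) + p = 0 := by linear_combination ha
  have key : ∃ T : Finset (Fin 4 → F), T.card ≤ 4 ∧
      {q : Fin 4 → F | On f q ∧ q 0 = s ∧ q 1 = p} ⊆ (T : Set (Fin 4 → F)) := by
    by_cases hne : a = s - a
    · have h2a : 2 * a = s := by linear_combination hne
      refine ⟨({β, -β} : Finset F).image (fun y => ![s, p, y - f.derivative.eval a / (2 * y) * a,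
        f.derivative.eval a / (2 * y)]), ?_, ?_⟩
      · exact (Finset.card_image_le.trans Finset.card_le_two).trans (by norm_num)
      · rintro q ⟨hq, h0, h1⟩
        have ea : a ^ 2 - q 0 * a + q 1 = 0 := by rw [h0, h1]; exact ha
        have e2 : 2 * a = q 0 := by rw [h0]; exact h2a
        have e3 := on_eval hq ea
        have e4 := on_deriv hq ea e2
        have e5 := on_ne hf hq ea e2
        rw [Finset.mem_coe, Finset.mem_image]
        refine ⟨(pB q).eval a, ?_, ?_⟩
        · rw [Finset.mem_insert, Finset.mem_singleton]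
          exact sq_eq_sq_iff_eq_or_eq_neg.1 (e3.trans hβ.symm)
        · have e6 : f.derivative.eval a / (2 * (pB q).eval a) = q 3 := by
            rw [← e4]
            field_simp
          funext i
          fin_cases i
          · exact h0.symm
          · exact h1.symm
          · change (pB q).eval a - f.derivative.eval a / (2 * (pB q).eval a) * a = q 2
            rw [e6, eval_pB]
            ring
          · exact e6
    · have hd : a - (s - a) ≠ 0 := sub_ne_zero.2 hne
      refine ⟨(({β, -β} : Finset F) ×ˢ ({β', -β'} : Finset F)).image (fun y =>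
        ![s, p, y.1 - (y.1 - y.2) / (a - (s - a)) * a, (y.1 - y.2) / (a - (s - a))]), ?_, ?_⟩
      · exact Finset.card_image_le.trans (card_four β β')
      · rintro q ⟨hq, h0, h1⟩
        have ea : a ^ 2 - q 0 * a + q 1 = 0 := by rw [h0, h1]; exact ha
        have ea' : (s - a) ^ 2 - q 0 * (s - a) + q 1 = 0 := by rw [h0, h1]; exact ha'
        have e3 := on_eval hq ea
        have e3' := on_eval hq ea'
        rw [Finset.mem_coe, Finset.mem_image]
        refine ⟨((pB q).eval a, (pB q).eval (s - a)), ?_, ?_⟩
        · rw [Finset.mem_product, Finset.mem_insert, Finset.mem_singleton, Finset.mem_insert,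
            Finset.mem_singleton]
          exact ⟨sq_eq_sq_iff_eq_or_eq_neg.1 (e3.trans hβ.symm),
            sq_eq_sq_iff_eq_or_eq_neg.1 (e3'.trans hβ'.symm)⟩
        · have e6 : ((pB q).eval a - (pB q).eval (s - a)) / (a - (s - a)) = q 3 := by
            rw [eval_pB, eval_pB, div_eq_iff hd]
            ring
          funext i
          fin_cases i
          · exact h0.symm
          · exact h1.symm
          · change (pB q).eval a - ((pB q).eval a - (pB q).eval (s - a)) / (a - (s - a)) * a = q 2
            rw [e6, eval_pB]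
            ring
          · exact e6
  obtain ⟨T, hT1, hT2⟩ := key
  have hfin := (Finset.finite_toSet T).subset hT2
  refine ⟨hfin, ?_⟩
  have h1 := Set.ncard_le_ncard hT2 (Finset.finite_toSet T)
  rw [Set.ncard_coe_finset] at h1
  exact h1.trans hT1

end Pool.Agent.KDT.Z.H49
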