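import Pool.Agent.KDT.StmtsM

set_option autoImplicit false

/-!
# Squad KDT, row SDN: a coset of a finite subgroup meets the theta divisor in few points
-/

namespace Pool.Agent.KDT.Z.H49

open Polynomial H58Q Pool.Agent.SZT Pool.Agent.KDT.Z

theorem sdn : SdnStatement := by
  classical
  intro F _ f J _ th cl hJ H hfin c
  have hH : (H : Set J).Finite := hfin
  set HF : Finset J := hH.toFinset with hHF
  have hcard : HF.card = Nat.card H := by
    rw [hHF, ← Set.ncard_eq_toFinset_card (H : Set J) hH]
    exact (Nat.card_coe_set_eq (H : Set J)).symm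
  have hmem : ∀ h, h ∈ HF ↔ h ∈ H := fun h => by rw [hHF, Set.Finite.mem_toFinset]; rfl
  set A : Finset J := HF.filter (fun h => ∃ z, c + h = th z) with hA
  have hAmem : ∀ h, h ∈ A ↔ h ∈ H ∧ ∃ z, c + h = th z := fun h => by
    rw [hA, Finset.mem_filter, hmem]
  -- the fibres
  have hfib : ∀ b ∈ A.offDiag.image (fun p : J × J => p.1 - p.2),
      (A.offDiag.filter (fun p : J × J => p.1 - p.2 = b)).card ≤ 2 := by
    intro b hb
    obtain ⟨p0, hp0, hb0⟩ := Finset.mem_image.1 hb
    rw [Finset.mem_offDiag] at hp0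
    obtain ⟨hp1, hp2, hpne⟩ := hp0
    obtain ⟨_, z0, hz0⟩ := (hAmem _).1 hp1
    obtain ⟨_, w0, hw0⟩ := (hAmem _).1 hp2
    have hsub : A.offDiag.filter (fun p : J × J => p.1 - p.2 = b) ⊆
        {p0, (-c - (c + p0.2), -c - (c + p0.2) - b)} := by
      intro p hp
      rw [Finset.mem_filter, Finset.mem_offDiag] at hp
      obtain ⟨⟨hq1, hq2, hqne⟩, hqb⟩ := hp
      obtain ⟨_, z, hz⟩ := (hAmem _).1 hq1
      obtain ⟨_, w, hw⟩ := (hAmem _).1 hq2
      have e1 : th z + th w.neg = th z0 + th w0.neg := by
        rw [hJ.th_neg, hJ.th_neg, ← hz, ← hw, ← hz0, ← hw0]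
        have h1 : p.1 - p.2 = p0.1 - p0.2 := hqb.trans hb0.symm
        calc c + p.1 + -(c + p.2) = p.1 - p.2 := by abel
          _ = p0.1 - p0.2 := h1
          _ = c + p0.1 + -(c + p0.2) := by abel
      have e2 : th z + th w.neg ≠ 0 := by
        rw [hJ.th_neg, ← hz, ← hw]
        intro h0
        apply hqne
        have h1 : c + p.1 + -(c + p.2) = p.1 - p.2 := by abel
        rw [h1] at h0
        exact sub_eq_zero.1 h0
      rw [Finset.mem_insert, Finset.mem_singleton]
      rcases hJ.th_pair _ _ _ _ e1 e2 with ⟨h1, _⟩ | ⟨h1, _⟩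
      · left
        have h3 : p.1 = p0.1 := by
          have h4 : c + p.1 = c + p0.1 := by rw [hz, hz0, h1]
          exact add_left_cancel h4
        have h5 : p.2 = p0.2 := by
          have h6 : p.1 - p.2 = p0.1 - p0.2 := hqb.trans hb0.symm
          rw [h3] at h6
          exact sub_right_injective h6
        exact Prod.ext h3 h5
      · right
        have h3 : p.1 = -c - (c + p0.2) := by
          have h4 : c + p.1 = -(c + p0.2) := by rw [hz, hw0, h1, hJ.th_neg]
          calc p.1 = -c + (c + p.1) := by abel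
            _ = -c + -(c + p0.2) := by rw [h4]
            _ = -c - (c + p0.2) := by abel
        have h5 : p.2 = -c - (c + p0.2) - b := by
          rw [← h3, ← hqb]
          abel
        exact Prod.ext h3 h5
    exact (Finset.card_le_card hsub).trans Finset.card_le_two
  have h1 := Finset.card_le_mul_card_image A.offDiag 2 hfib
  have h2 : (A.offDiag.image (fun p : J × J => p.1 - p.2)).card ≤ HF.card := by
    apply Finset.card_le_card
    intro b hb
    obtain ⟨p, hp, rfl⟩ := Finset.mem_image.1 hb
    rw [Finset.mem_offDiag] at hp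
    exact (hmem _).2 (H.sub_mem ((hAmem _).1 hp.1).1 ((hAmem _).1 hp.2.1).1)
  rw [Finset.offDiag_card] at h1
  rw [hcard] at h2
  have h3 : A.card ≤ Nat.sqrt (2 * Nat.card H) + 1 := by
    rcases Nat.eq_zero_or_pos A.card with h0 | h0
    · omega
    · have h4 : (A.card - 1) * (A.card - 1) ≤ 2 * Nat.card H := by
        obtain ⟨m, hm⟩ := Nat.exists_eq_add_of_le h0
        rw [hm] at h1 ⊢
        have h5 : (1 + m) * (1 + m) - (1 + m) = m * m + m := by
          have h6 : (1 + m) * (1 + m) = m * m + m + (1 + m) := by ring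
          omega
        have h7 : 1 + m - 1 = m := by omega
        rw [h5] at h1
        rw [h7]
        nlinarith
      have h5 := Nat.le_sqrt.2 h4
      omega
  -- the element with `c + h = 0`
  have h4 : {h : J | h ∈ H ∧ Tht th (c + h)} ⊆ ((insert (-c) A : Finset J) : Set J) := by
    intro h hh
    obtain ⟨hh1, hh2⟩ := hh
    rw [Finset.coe_insert, Set.mem_insert_iff, Finset.mem_coe]
    rcases hh2 with h0 | ⟨z, hz⟩
    · exact Or.inl (eq_neg_of_add_eq_zero_right h0)
    · exact Or.inr ((hAmem h).2 ⟨hh1, z, hz⟩)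
  have h5 := Set.ncard_le_ncard h4 (Finset.finite_toSet _)
  rw [Set.ncard_coe_finset] at h5
  have h6 := Finset.card_insert_le (-c) A
  omega

end Pool.Agent.KDT.Z.H49
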